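import Mathlib

/-! # Counting algebraically independent families -/

set_option autoImplicit false

namespace Pool.Agent.Y931.C3

open MvPolynomial

/-- an algebraically independent family in the ring generated by a finite family is not larger -/
theorem count {ι κ : Type*} [Finite ι] [Finite κ] (a : ι → ℂ) (b : κ → ℂ)
    (ha : AlgebraicIndependent ℚ a)
    (h : ∀ i, a i ∈ Algebra.adjoin ℚ (Set.range b)) : Nat.card ι ≤ Nat.card κ := by
  classical
  cases nonempty_fintype ι
  cases nonempty_fintype κ
  let e := Fintype.equivFin ι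
  set A : Subalgebra ℚ ℂ := Algebra.adjoin ℚ (Set.range b) with hA
  let a' : Fin (Fintype.card ι) → A := fun i => ⟨a (e.symm i), h _⟩
  have ha1 : AlgebraicIndependent ℚ (fun i => a (e.symm i)) :=
    ha.comp e.symm e.symm.injective
  have ha' : AlgebraicIndependent ℚ a' := by
    have : (fun i => a (e.symm i)) = A.val ∘ a' := rfl
    rw [this] at ha1
    exact AlgebraicIndependent.of_comp A.val ha1
  have hb : ∀ j, b j ∈ A := fun j => Algebra.subset_adjoin ⟨j, rfl⟩
  let b' : κ → A := fun j => ⟨b j, hb j⟩
  have htop : Algebra.adjoin ℚ (Set.range b') = ⊤ := by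
    have h1 : (Algebra.adjoin ℚ (Set.range b')).map A.val = (⊤ : Subalgebra ℚ A).map A.val := by
      rw [AlgHom.map_adjoin, ← Set.range_comp]
      have : (A.val ∘ b') = b := rfl
      rw [this, Algebra.map_top, Subalgebra.range_val]
    exact Subalgebra.map_injective (Subtype.val_injective) h1
  have hal : Algebra.IsAlgebraic (Algebra.adjoin ℚ (Set.range b')) A := by
    rw [htop]
    refine ⟨fun x => ?_⟩
    exact isAlgebraic_algebraMap (⟨x, Algebra.mem_top⟩ : (⊤ : Subalgebra ℚ A))
  have h1 := ha'.lift_cardinalMk_le_trdeg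
  have h2 : Algebra.trdeg ℚ A ≤ Cardinal.mk (Set.range b') :=
    Algebra.IsAlgebraic.trdeg_le_cardinalMk ℚ (Set.range b')
  have h3 : Cardinal.mk (Set.range b') ≤ ((Fintype.card κ : ℕ) : Cardinal) := by
    rw [Cardinal.mk_fintype, Nat.cast_le]
    exact Fintype.card_range_le b'
  have h4 : ((Fintype.card ι : ℕ) : Cardinal.{0}) ≤ ((Fintype.card κ : ℕ) : Cardinal.{0}) := by
    simpa using h1.trans (Cardinal.lift_le.mpr (h2.trans h3))
  rw [Nat.card_eq_fintype_card, Nat.card_eq_fintype_card]
  exact_mod_cast h4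

/-- a family of coefficients is not algebraically independent if the members in the range of
`g` lie in the ring generated by the others and fewer numbers -/
theorem count_not {ι κ μ : Type*} [Finite ι] [Finite κ] [Finite μ] (a : ι → ℂ) (b : κ → ℂ)
    (g : μ → ι) (hg : Function.Injective g) (hc : Nat.card κ < Nat.card μ)
    (h : ∀ i, a (g i) ∈ Algebra.adjoin ℚ (Set.range b ∪ {x | ∃ j, j ∉ Set.range g ∧ a j = x})) :
    ¬ AlgebraicIndependent ℚ a := by
  classical
  intro ha
  let b2 : κ ⊕ {j : ι // j ∉ Set.range g} → ℂ := Sum.elim b fun j => a j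
  have hr : Set.range b2 = Set.range b ∪ {x | ∃ j, j ∉ Set.range g ∧ a j = x} := by
    rw [Set.Sum.elim_range]
    congr 1
    ext x
    simp [b2]
  have h1 : Nat.card ι ≤ Nat.card (κ ⊕ {j : ι // j ∉ Set.range g}) := by
    refine count a b2 ha ?_
    intro i
    rw [hr]
    by_cases hi : i ∈ Set.range g
    · obtain ⟨m, rfl⟩ := hi
      exact h m
    · exact Algebra.subset_adjoin (Or.inr ⟨i, hi, rfl⟩)
  have h2 : Nat.card ι = Nat.card μ + Nat.card {j : ι // j ∉ Set.range g} := by
    have h3 : Nat.card {j : ι // j ∈ Set.range g} = Nat.card μ :=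
      Nat.card_congr (Equiv.ofInjective g hg).symm
    rw [← h3, ← Nat.card_sum]
    exact Nat.card_congr (Equiv.sumCompl (fun j => j ∈ Set.range g)).symm
  rw [Nat.card_sum] at h1
  omega

/-- finitely many exponents of given degree -/
instance exFinite (σ : Type*) [Finite σ] (d : ℕ) : Finite {m : σ →₀ ℕ // m.degree = d} := by
  classical
  cases nonempty_fintype σ
  have : {m : σ →₀ ℕ | m.degree = d} = ↑((Finset.univ : Finset σ).finsuppAntidiag d) := by
    ext m
    simp only [Set.mem_setOf_eq, Finset.mem_coe, Finset.mem_finsuppAntidiag,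
      Finsupp.degree_eq_sum]
    exact ⟨fun h => ⟨h, Finset.subset_univ _⟩, fun h => h.1⟩
  have h : {m : σ →₀ ℕ | m.degree = d}.Finite := by
    rw [this]
    exact Finset.finite_toSet _
  exact h.to_subtype

end Pool.Agent.Y931.C3
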