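import Mathlib
import Pool.Agent.Y201.C3.Stm
import Pool.Agent.Y931.C3.Count

/-! # A cubic form in six variables with independent coefficients is smooth -/

set_option autoImplicit false

namespace Pool.Agent.Y931.C3

open MvPolynomial Finsupp

theorem eval_scale {n d : ℕ} {G : MvPolynomial (Fin n) ℂ} (hG : G.IsHomogeneous d) (c : ℂ)
    (z : Fin n → ℂ) : eval (fun i => c * z i) G = c ^ d * eval z G := by
  rw [eval_eq', eval_eq', Finset.mul_sum]
  refine Finset.sum_congr rfl fun m hm => ?_
  have hd : ∑ i, m i = d := by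
    by_contra hcon
    refine (MvPolynomial.mem_support_iff.mp hm) (hG.coeff_eq_zero ?_)
    rwa [Finsupp.degree_eq_sum]
  simp_rw [mul_pow]
  rw [Finset.prod_mul_distrib, Finset.prod_pow_eq_pow_sum, hd]
  ring

theorem eval_pd {n : ℕ} (F : MvPolynomial (Fin n) ℂ) (i : Fin n) (w : Fin n → ℂ) :
    eval w (pderiv i F) =
      ∑ m ∈ F.support, F.coeff m * (m i : ℂ) * ∏ j, w j ^ ((m - single i 1 : Fin n →₀ ℕ) j) := by
  conv_lhs => rw [F.as_sum]
  rw [map_sum, map_sum]
  refine Finset.sum_congr rfl fun m _ => ?_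
  rw [pderiv_monomial, eval_monomial, Finsupp.prod_fintype]
  intro j
  exact pow_zero _

theorem smooth : Y201.C3.S_SMOOTH := by
  classical
  intro F hF hind z hz
  by_contra hne
  obtain ⟨k, hk⟩ : ∃ k, z k ≠ 0 := by
    by_contra hcon
    push Not at hcon
    exact hne (funext hcon)
  let w : Fin 6 → ℂ := fun i => (z k)⁻¹ * z i
  have hwk : w k = 1 := inv_mul_cancel₀ hk
  have hw : ∀ i, eval w (pderiv i F) = 0 := by
    intro i
    have := eval_scale (hF.pderiv (i := i)) (z k)⁻¹ z
    rw [hz i, mul_zero] at this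
    exact this
  let g : Fin 6 → Y201.VL.Ex (Fin 6) 3 := fun i => ⟨single k 2 + single i 1, by
    simp [map_add, Finsupp.degree_single]⟩
  have hg : Function.Injective g := by
    intro i j hij
    have h1 : (single k 2 + single i 1 : Fin 6 →₀ ℕ) = single k 2 + single j 1 :=
      congrArg Subtype.val hij
    have h2 := add_left_cancel h1
    exact (Finsupp.single_left_injective one_ne_zero) h2
  let b : {j : Fin 6 // j ≠ k} → ℂ := fun j => w j
  set U := Algebra.adjoin ℚ (Set.range b ∪
    {x | ∃ j : Y201.VL.Ex (Fin 6) 3, j ∉ Set.range g ∧ F.coeff (j : Fin 6 →₀ ℕ) = x}) with hU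
  have hwU : ∀ j, w j ∈ U := by
    intro j
    by_cases hj : j = k
    · rw [hj, hwk]
      exact one_mem _
    · exact Algebra.subset_adjoin (Or.inl ⟨⟨j, hj⟩, rfl⟩)
  have key : ∀ i, (∀ m ∈ F.support, m ≠ single k 2 + single i 1 → m i ≠ 0 → F.coeff m ∈ U) →
      F.coeff (single k 2 + single i 1) ∈ U := by
    intro i hi
    by_cases hm0 : (single k 2 + single i 1 : Fin 6 →₀ ℕ) ∈ F.support
    swap
    · rw [MvPolynomial.notMem_support_iff.mp hm0]
      exact zero_mem _
    have h1 := hw i
    rw [eval_pd, ← Finset.add_sum_erase _ _ hm0] at h1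
    have h2 : ∏ j, w j ^ ((single k 2 + single i 1 - single i 1 : Fin 6 →₀ ℕ) j) = 1 := by
      rw [add_tsub_cancel_right]
      refine Finset.prod_eq_one fun j _ => ?_
      by_cases hj : j = k
      · rw [hj, hwk, one_pow]
      · rw [Finsupp.single_apply, if_neg (Ne.symm hj), pow_zero]
    rw [h2, mul_one] at h1
    have h3 : ∑ m ∈ F.support.erase (single k 2 + single i 1),
        F.coeff m * (m i : ℂ) * ∏ j, w j ^ ((m - single i 1 : Fin 6 →₀ ℕ) j) ∈ U := by
      refine sum_mem fun m hm => ?_
      rw [Finset.mem_erase] at hm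
      by_cases hmi : m i = 0
      · rw [hmi]
        simp
      · refine mul_mem (mul_mem (hi m hm.2 hm.1 hmi) (natCast_mem U (m i))) ?_
        exact prod_mem fun j _ => pow_mem (hwU j) _
    have h4 : ((single k 2 + single i 1 : Fin 6 →₀ ℕ) i : ℂ) ≠ 0 := by
      rw [Finsupp.add_apply, Finsupp.single_eq_same, Nat.cast_ne_zero]
      omega
    have h5 : F.coeff (single k 2 + single i 1) =
        (((single k 2 + single i 1 : Fin 6 →₀ ℕ) i : ℚ)⁻¹) •
        (-∑ m ∈ F.support.erase (single k 2 + single i 1),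
          F.coeff m * (m i : ℂ) * ∏ j, w j ^ ((m - single i 1 : Fin 6 →₀ ℕ) j)) := by
      rw [← eq_neg_iff_add_eq_zero.mpr h1, Algebra.smul_def, map_inv₀, map_natCast]
      field_simp
    rw [h5]
    exact U.smul_mem (neg_mem h3) _
  have hdeg : ∀ m ∈ F.support, m.degree = 3 := by
    intro m hm
    by_contra hcon
    exact (MvPolynomial.mem_support_iff.mp hm) (hF.coeff_eq_zero hcon)
  have hoth : ∀ m ∈ F.support, (∀ i, m ≠ single k 2 + single i 1) → F.coeff m ∈ U := by
    intro m hm hmi
    refine Algebra.subset_adjoin (Or.inr ⟨⟨m, hdeg m hm⟩, ?_, rfl⟩)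
    rintro ⟨i, hi⟩
    exact hmi i (congrArg Subtype.val hi).symm
  have hne' : ∀ i, i ≠ k → F.coeff (single k 2 + single i 1) ∈ U := by
    intro i hik
    refine key i fun m hm hmi hmi0 => hoth m hm fun j hj => ?_
    rcases eq_or_ne j i with rfl | hji
    · exact hmi hj
    · apply hmi0
      rw [hj, Finsupp.add_apply, Finsupp.single_eq_of_ne hik, Finsupp.single_eq_of_ne hji.symm, add_zero]
  refine count_not (fun m : Y201.VL.Ex (Fin 6) 3 => F.coeff (m : Fin 6 →₀ ℕ)) b g hg ?_ ?_ hind
  · rw [Nat.card_eq_fintype_card, Nat.card_eq_fintype_card]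
    rw [Fintype.card_subtype_compl]
    simp
  · intro i
    rcases eq_or_ne i k with rfl | hik
    · refine key i fun m hm hmi _ => ?_
      by_cases h : ∃ j, m = single i 2 + single j 1
      · obtain ⟨j, hj⟩ := h
        rcases eq_or_ne j i with rfl | hji
        · exact absurd hj hmi
        · rw [hj]
          exact hne' j hji
      · push Not at h
        exact hoth m hm h
    · exact hne' i hik

end Pool.Agent.Y931.C3
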